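import Pool.Agent.Run7.h15.AS.Real

/-!
# One set for all exponents

Windows of length proportional to their position, separated by gaps of relative size tending to
zero slowly; the sets in the windows are those of `good_exists` with slowly improving exponents.
-/

set_option autoImplicit false

namespace Pool.Agent.Run7.h15.AS

open Finset Pool.Agent.H125R2.ET Pool.Agent.Helper667_AS

/-- a slowly growing function -/
theorem slow (Θ : ℕ → ℕ) (h1 : 1 ≤ Θ 1) : ∃ τ : ℕ → ℕ,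
    (∀ κ, Θ 1 ≤ κ → 1 ≤ τ κ ∧ Θ (τ κ) ≤ κ) ∧ ∀ s, ∃ N, ∀ κ ≥ N, s ≤ τ κ := by
  classical
  refine ⟨fun κ => Nat.findGreatest (fun t => Θ t ≤ κ) κ, ?_, ?_⟩
  · intro κ hκ
    exact ⟨Nat.le_findGreatest (h1.trans hκ) hκ,
      Nat.findGreatest_spec (P := fun t => Θ t ≤ κ) (h1.trans hκ) hκ⟩
  · intro s
    refine ⟨Θ s + s, fun κ hκ => ?_⟩
    exact Nat.le_findGreatest (by omega) (by omega)

/-- the sets of the stage `t` -/
theorem stage (t : ℕ) (ht : 1 ≤ t) : ∃ (B : Set ℕ) (N : ℕ), ∀ u ≥ N,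
    (∀ n, (repF (cut B u) (cut B u) n) ^ t ≤ u ^ 2) ∧ t * bc B u ≤ u ∧
    (∀ γ, u ≤ γ ^ 2 → (cut B u).card ^ 2 ≤ 2 ^ (u + 2 * γ)) := by
  have hf : 1 ≤ t ^ 2 := Nat.one_le_pow _ _ ht
  obtain ⟨B, c, hB⟩ := good_exists t (t ^ 2) hf
  have hd : t ^ 2 + t = t * (t + 1) := by ring
  obtain ⟨N1, hN1⟩ := pow_le_two_pow (2 * (t + 1) + 1)
  obtain ⟨H, hH⟩ : ∃ H, H = N1 + 2 * c * 3 ^ (t + 1) + 1 := ⟨_, rfl⟩
  refine ⟨B, H ^ 2 + 3 * c + t ^ (t ^ 2 + t) * c + 1, fun u hu => ⟨?_, ?_, ?_⟩⟩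
  · intro n
    refine (Nat.pow_le_pow_iff_left (n := t + 1) (by omega)).1 ?_
    have e1 : c * (u + 2) ≤ u ^ 2 := by
      calc c * (u + 2) ≤ c * (3 * u) := Nat.mul_le_mul_left _ (by omega)
        _ = (3 * c) * u := by ring
        _ ≤ u * u := Nat.mul_le_mul_right _ (by omega)
        _ = u ^ 2 := (sq u).symm
    calc ((repF (cut B u) (cut B u) n) ^ t) ^ (t + 1)
        = (repF (cut B u) (cut B u) n) ^ (t ^ 2 + t) := by rw [← pow_mul, hd]
      _ ≤ c * (u + 2) ^ (t + 1) := cut_rep hf hB u n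
      _ ≤ c ^ (t + 1) * (u + 2) ^ (t + 1) :=
          Nat.mul_le_mul_right _ (Nat.le_self_pow (by omega) c)
      _ = (c * (u + 2)) ^ (t + 1) := (mul_pow _ _ _).symm
      _ ≤ (u ^ 2) ^ (t + 1) := Nat.pow_le_pow_left e1 _
  · refine (Nat.pow_le_pow_iff_left (n := t ^ 2 + t) (by omega)).1 ?_
    calc (t * bc B u) ^ (t ^ 2 + t) = t ^ (t ^ 2 + t) * (bc B u) ^ (t ^ 2 + t) := mul_pow _ _ _
      _ ≤ t ^ (t ^ 2 + t) * (c * u ^ (t ^ 2)) := Nat.mul_le_mul_left _ (hB.bad u)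
      _ = (t ^ (t ^ 2 + t) * c) * u ^ (t ^ 2) := by ring
      _ ≤ u ^ t * u ^ (t ^ 2) := by
          refine Nat.mul_le_mul_right _ ?_
          calc t ^ (t ^ 2 + t) * c ≤ u := by omega
            _ ≤ u ^ t := Nat.le_self_pow (by omega) u
      _ = u ^ (t ^ 2 + t) := by rw [← pow_add, add_comm]
  · intro γ hγ
    have hHγ : H ≤ γ := by
      refine (Nat.pow_le_pow_iff_left (n := 2) (by norm_num)).1 ?_
      omega
    have e1 : 2 * (c * (u + 2) ^ (t + 1)) ≤ 2 ^ (2 * γ) := by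
      calc 2 * (c * (u + 2) ^ (t + 1)) ≤ 2 * (c * (3 * γ ^ 2) ^ (t + 1)) :=
            Nat.mul_le_mul_left _ (Nat.mul_le_mul_left _ (Nat.pow_le_pow_left (by omega) _))
        _ = (2 * c * 3 ^ (t + 1)) * γ ^ (2 * (t + 1)) := by rw [mul_pow, ← pow_mul]; ring
        _ ≤ γ * γ ^ (2 * (t + 1)) := Nat.mul_le_mul_right _ (by omega)
        _ = γ ^ (2 * (t + 1) + 1) := by ring
        _ ≤ 2 ^ γ := hN1 γ (by omega)
        _ ≤ 2 ^ (2 * γ) := Nat.pow_le_pow_right (by norm_num) (by omega)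
    calc (cut B u).card ^ 2 ≤ 2 ^ (u + 1) * (c * (u + 2) ^ (t + 1)) := cut_card hf hB u
      _ = 2 ^ u * (2 * (c * (u + 2) ^ (t + 1))) := by rw [pow_succ]; ring
      _ ≤ 2 ^ u * 2 ^ (2 * γ) := Nat.mul_le_mul_left _ e1
      _ = 2 ^ (u + 2 * γ) := (pow_add _ _ _).symm

/-- the positions of the windows -/
def pos (κ0 : ℕ) : ℕ → ℕ
  | 0 => κ0
  | i + 1 => pos κ0 i + pos κ0 i / 512

theorem diag : ∃ A : Set ℕ, (∀ s, 1 ≤ s → ∃ c, ∀ n, (rA A n) ^ s ≤ c * (Nat.log 2 n + 1)) ∧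
    ∀ s, 1 ≤ s → ∃ N, ∀ K ≥ N, s * bc A K ≤ K := by
  obtain ⟨C, hC⟩ := base_exists
  have hM : BlockMom C := block_mom C
  have hR : BlockRange C := block_range C
  obtain ⟨C4, K0, hmain⟩ := wide_set C hM hR (reg_prob C hM hR)
  have hst : ∀ t, ∃ (B : Set ℕ) (N : ℕ), 1 ≤ t → ∀ u ≥ N,
      (∀ n, (repF (cut B u) (cut B u) n) ^ t ≤ u ^ 2) ∧ t * bc B u ≤ u ∧
      (∀ γ, u ≤ γ ^ 2 → (cut B u).card ^ 2 ≤ 2 ^ (u + 2 * γ)) := by
    intro t
    by_cases ht : 1 ≤ t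
    · obtain ⟨B, N, h⟩ := stage t ht
      exact ⟨B, N, fun _ => h⟩
    · exact ⟨∅, 0, fun h => absurd h ht⟩
  choose G N hG using hst
  obtain ⟨N2, hN2⟩ := pow_le_two_pow 5
  obtain ⟨Θ, hΘ⟩ : ∃ Θ : ℕ → ℕ, ∀ t, Θ t = 256 * N t + (8192 * t) ^ 2 + (4096 * t) ^ t + 1 :=
    ⟨_, fun t => rfl⟩
  obtain ⟨τ, hτ1, hτ2⟩ := slow Θ (by rw [hΘ]; omega)
  obtain ⟨κ0, hκ0⟩ : ∃ κ0, κ0 = Θ 1 + 2 ^ 21 + K0 + C + 16 + (N2 + C + 8) ^ 2 := ⟨_, rfl⟩
  obtain ⟨κ, hκz, hκs⟩ : ∃ κ : ℕ → ℕ, κ 0 = κ0 ∧ ∀ i, κ (i + 1) = κ i + κ i / 512 :=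
    ⟨pos κ0, rfl, fun i => rfl⟩
  have hκlow : ∀ i, κ0 + i ≤ κ i := by
    intro i
    induction i with
    | zero => omega
    | succ i ih =>
      have := hκs i
      omega
  have hκmono : Monotone κ := monotone_nat_of_le_succ (fun i => by have := hκs i; omega)
  obtain ⟨T, hT⟩ : ∃ T : ℕ → ℕ, ∀ i, T i = τ (κ i) := ⟨_, fun i => rfl⟩
  have hT1 : ∀ i, 1 ≤ T i ∧ Θ (T i) ≤ κ i := by
    intro i
    rw [hT]
    exact hτ1 (κ i) (by have := hκlow i; omega)
  have hTlim : ∀ s, ∃ I, ∀ i ≥ I, s ≤ T i := by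
    intro s
    obtain ⟨M, hM⟩ := hτ2 s
    refine ⟨M, fun i hi => ?_⟩
    rw [hT]
    exact hM _ (by have := hκlow i; omega)
  obtain ⟨γ, hγ⟩ : ∃ γ : ℕ → ℕ, ∀ i, γ i = κ i / (2048 * T i) := ⟨_, fun i => rfl⟩
  -- the size of `γ`
  have hγup : ∀ i, 2048 * T i * γ i ≤ κ i := by
    intro i
    rw [hγ]
    exact Nat.mul_div_le _ _
  have hγlow : ∀ i, κ i ≤ 4096 * T i * γ i ∧ κ i ≤ γ i ^ 2 := by
    intro i
    obtain ⟨h1, h2⟩ := hT1 i
    rw [hΘ] at h2
    obtain ⟨M, hM⟩ : ∃ M, M = 2048 * T i := ⟨_, rfl⟩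
    have h3 : (4 * M) ^ 2 ≤ κ i := by
      have : 4 * M = 8192 * T i := by rw [hM]; ring
      rw [this]
      omega
    have h4 : κ i < M * (γ i + 1) := by
      rw [hγ, ← hM]
      exact Nat.lt_mul_div_succ _ (by omega)
    have h5 : 2 * M ≤ γ i := by
      by_contra hc
      push Not at hc
      have : M * (γ i + 1) ≤ M * (2 * M) := Nat.mul_le_mul_left _ hc
      have h6 : (4 * M) ^ 2 = 16 * (M * M) := by ring
      have h7 : M * (2 * M) = 2 * (M * M) := by ring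
      omega
    have h6 : M * (γ i + 1) ≤ M * (2 * γ i) := Nat.mul_le_mul_left _ (by omega)
    have h7 : M * (2 * γ i) = 2 * M * γ i := by ring
    constructor
    · have : 4096 * T i * γ i = 2 * M * γ i := by rw [hM]; ring
      omega
    · have : 2 * M * γ i ≤ γ i * γ i := Nat.mul_le_mul_right _ h5
      rw [sq]
      omega
  have hwid : ∀ i, 2048 ≤ κ i / 512 ∧ 512 * (κ i / 512) ≤ κ i ∧ κ i < 512 * (κ i / 512) + 512 ∧
      3 * γ (i + 1) ≤ κ i / 512 := by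
    intro i
    have h1 := hκlow i
    have h2 := hκs i
    have h3 := hγup (i + 1)
    have h4 := (hT1 (i + 1)).1
    have h5 : 2048 * γ (i + 1) ≤ κ (i + 1) := by
      refine le_trans ?_ h3
      calc 2048 * γ (i + 1) = 2048 * 1 * γ (i + 1) := by ring
        _ ≤ 2048 * T (i + 1) * γ (i + 1) :=
            Nat.mul_le_mul_right _ (Nat.mul_le_mul_left _ h4)
    omega
  obtain ⟨u, hu⟩ : ∃ u : ℕ → ℕ, ∀ i, u i = 8 * (κ i / 512) - 8 * γ (i + 1) := ⟨_, fun i => rfl⟩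
  have hueq : ∀ i, 8 * κ i + u i + 8 * γ (i + 1) = 8 * κ (i + 1) := by
    intro i
    have h1 := hwid i
    have h2 := hκs i
    rw [hu]
    omega
  have hulow : ∀ i, κ i ≤ 256 * u i := by
    intro i
    have h1 := hwid i
    rw [hu]
    omega
  have huN : ∀ i, N (T i) ≤ u i := by
    intro i
    have h1 := hulow i
    have h2 := (hT1 i).2
    rw [hΘ] at h2
    omega
  have huκ : ∀ i, u i ≤ κ i := by
    intro i
    have h1 := hwid i
    rw [hu]
    omega
  -- primes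
  have h1 : ∀ i : ℕ, ∃ p : ℕ, p.Prime ∧ 2 ^ (κ i) < p ∧ p ≤ 2 ^ (κ i + 1) := by
    intro i
    obtain ⟨p, hp, h1, h2⟩ := Nat.exists_prime_lt_and_le_two_mul (2 ^ (κ i))
      (pow_ne_zero _ two_ne_zero)
    exact ⟨p, hp, h1, by rw [pow_succ 2]; omega⟩
  choose p hp hlo hhi using h1
  have h7 : ∀ i, 7 < p i := by
    intro i
    have h2 := hκlow i
    have h3 : 2 ^ 3 ≤ 2 ^ (κ i) := Nat.pow_le_pow_right (by norm_num) (by omega)
    have := hlo i
    omega
  have h2 : ∀ i, ∃ D : Finset ℕ, IsBase C (p i) D := fun i => hC (p i) (hp i) (h7 i)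
  choose E hE using h2
  have hγbig : ∀ i, N2 + C + 8 ≤ γ i := by
    intro i
    refine (Nat.pow_le_pow_iff_left (n := 2) (by norm_num)).1 ?_
    have h1 := (hγlow i).2
    have h2 := hκlow i
    omega
  obtain ⟨s, hsB, hsκ, hsu, hsγ⟩ : ∃ s : WSys C, (∀ i, s.B i = cut (G (T i)) (u i)) ∧
      (∀ i, s.κ i = κ i) ∧ (∀ i, s.u i = u i) ∧ (∀ i, s.γ i = γ i) := by
    refine ⟨⟨p, E, fun i => cut (G (T i)) (u i), κ, u, γ, hp, hlo, hhi, hE,
      ?_, ?_, ?_, ?_, ?_, ?_, ?_, ?_⟩, fun i => rfl, fun i => rfl, fun i => rfl, fun i => rfl⟩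
    · intro i b hb
      exact (mem_cut.1 hb).1
    · intro i j hij
      have e1 := hueq j
      rcases Nat.eq_or_lt_of_le (Nat.succ_le_of_lt hij) with heq | hlt
      · have heq' : j + 1 = i := heq
        rw [heq'] at e1
        omega
      · obtain ⟨k, rfl⟩ : ∃ k, i = k + 1 := ⟨i - 1, by omega⟩
        have e2 : κ (j + 1) ≤ κ k := hκmono (by omega)
        have e3 := hκs k
        have e4 := hwid k
        omega
    · intro i j hij
      have e1 : κ j ≤ κ i := hκmono hij.le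
      exact (hG (T j) (hT1 j).1 (u j) (huN j)).2.2 (γ i) (by
        have := (hγlow i).2
        have := huκ j
        omega)
    · intro i
      have e1 := hwid i
      rw [hu]
      omega
    · intro i
      refine le_trans ?_ (hγup i)
      have := (hT1 i).1
      exact Nat.mul_le_mul_right _ (by omega)
    · intro i
      have := hκlow i
      omega
    · intro i
      have e1 := hκlow i
      have e2 := hγbig i
      have e3 := (hγlow i).2
      calc i * (κ i + C + 5) ≤ γ i ^ 2 * (2 * γ i ^ 2) := Nat.mul_le_mul (by omega) (by omega)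
        _ = 2 * γ i ^ 4 := by ring
        _ ≤ γ i * γ i ^ 4 := Nat.mul_le_mul_right _ (by omega)
        _ = γ i ^ 5 := by ring
        _ ≤ 2 ^ γ i := hN2 _ (by omega)
    · intro i
      have := hγbig i
      omega
  -- the representations in the sets `B i`
  have hρex : ∀ i, ∃ r, (∀ n, repF (s.B i) (s.B i) n ≤ r) ∧ r ^ T i ≤ κ i ^ 2 := by
    intro i
    classical
    have hk : ∀ n, (repF (s.B i) (s.B i) n) ^ T i ≤ κ i ^ 2 := by
      intro n
      rw [hsB]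
      exact ((hG (T i) (hT1 i).1 (u i) (huN i)).1 n).trans (Nat.pow_le_pow_left (huκ i) 2)
    have h0 : (0 : ℕ) ^ T i ≤ κ i ^ 2 := by
      rw [zero_pow (by have := (hT1 i).1; omega)]
      exact Nat.zero_le _
    refine ⟨Nat.findGreatest (fun r => r ^ T i ≤ κ i ^ 2) (κ i ^ 2), fun n => ?_, ?_⟩
    · refine Nat.le_findGreatest ?_ (hk n)
      exact (Nat.le_self_pow (by have := (hT1 i).1; omega) _).trans (hk n)
    · exact Nat.findGreatest_spec (P := fun r => r ^ T i ≤ κ i ^ 2) (Nat.zero_le _) h0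
  choose ρ hρ1 hρ2 using hρex
  obtain ⟨A, hA1, hA2⟩ := hmain s (fun i => by
      rw [hsκ i]
      have := hκlow i
      omega) ρ hρ1
  have hrep : ∀ n, rA A n = 0 ∨ ∃ i, 2 ^ (8 * κ i) ≤ n ∧ rA A n ≤ C4 * (ρ i + 4096 * T i) := by
    intro n
    rcases hA1 n with h | ⟨i, hi1, hi2⟩
    · exact Or.inl h
    · rw [hsκ i] at hi1 hi2
      rw [hsγ i] at hi2
      refine Or.inr ⟨i, hi1, ?_⟩
      have e0 : (0 : ℝ) < ((γ i : ℕ) : ℝ) := by
        have : 0 < γ i := by have := hγbig i; omega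
        exact_mod_cast this
      have e1 : (κ i : ℝ) / (γ i : ℝ) ≤ 4096 * (T i : ℝ) := by
        rw [div_le_iff₀ e0]
        exact_mod_cast (hγlow i).1
      have e2 : (rA A n : ℝ) ≤ ((C4 * (ρ i + 4096 * T i) : ℕ) : ℝ) := by
        refine hi2.trans ?_
        push_cast
        exact mul_le_mul_of_nonneg_left (by linarith) (Nat.cast_nonneg _)
      exact_mod_cast e2
  have hpow8 : ∀ i, 2 ^ (8 * κ i) ≤ (s.p i) ^ 8 ∧ (s.p i) ^ 8 ≤ 2 ^ (8 * κ i + 8) := by
    intro i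
    have e1 := s.lo i
    have e2 := s.hi i
    rw [hsκ i] at e1 e2
    constructor
    · calc 2 ^ (8 * κ i) = (2 ^ (κ i)) ^ 8 := by rw [← pow_mul, mul_comm]
        _ ≤ (s.p i) ^ 8 := Nat.pow_le_pow_left e1.le 8
    · calc (s.p i) ^ 8 ≤ (2 ^ (κ i + 1)) ^ 8 := Nat.pow_le_pow_left e2 8
        _ = 2 ^ (8 * κ i + 8) := by rw [← pow_mul]; ring_nf
  have hwin : ∀ i, bc A (8 * κ (i + 1)) ≤
      bc A (8 * κ i) + (13 + 8 * γ (i + 1) + 10 * bc (G (T i)) (u i)) := by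
    intro i
    have e1 := bc_window A (G (T i)) (κ := κ i) (κ' := κ (i + 1))
      (u := u i) (m := (s.p i) ^ 8) (hpow8 i).1 (hpow8 i).2 (by
        intro n hn hex
        refine hA2 i n hn ?_
        rw [hsB i]
        exact hex)
    have e2 := hueq i
    omega
  refine ⟨A, ?_, ?_⟩
  · intro s' hs'
    obtain ⟨I, hI⟩ := hTlim (2 * s')
    refine ⟨(2 * C4) ^ s' + (2 * C4 * κ I ^ 2) ^ s', fun n => ?_⟩
    rcases hrep n with h | ⟨i, hi1, hi2⟩
    · rw [h, zero_pow (by omega)]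
      exact Nat.zero_le _
    · have f1 : 8 * κ i ≤ Nat.log 2 n := Nat.le_log_of_pow_le (by norm_num) hi1
      have f2 : (4096 * T i) ^ T i ≤ κ i ^ 2 := by
        have g1 := (hT1 i).2
        rw [hΘ] at g1
        calc (4096 * T i) ^ T i ≤ κ i := by omega
          _ ≤ κ i ^ 2 := Nat.le_self_pow (by norm_num) _
      obtain ⟨y, hy⟩ : ∃ y, y = max (ρ i) (4096 * T i) := ⟨_, rfl⟩
      have f3 : y ^ T i ≤ κ i ^ 2 := by
        rcases max_choice (ρ i) (4096 * T i) with h | h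
        · rw [hy, h]; exact hρ2 i
        · rw [hy, h]; exact f2
      have hy1 : 1 ≤ y := by
        have := (hT1 i).1
        have : 4096 * T i ≤ y := by rw [hy]; exact le_max_right _ _
        omega
      have f4 : rA A n ≤ 2 * C4 * y := by
        refine hi2.trans ?_
        have g1 : ρ i ≤ y := by rw [hy]; exact le_max_left _ _
        have g2 : 4096 * T i ≤ y := by rw [hy]; exact le_max_right _ _
        calc C4 * (ρ i + 4096 * T i) ≤ C4 * (2 * y) := Nat.mul_le_mul_left _ (by omega)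
          _ = 2 * C4 * y := by ring
      by_cases hiI : I ≤ i
      · have g1 := hI i hiI
        have g2 : y ^ s' ≤ κ i := by
          refine (Nat.pow_le_pow_iff_left (n := 2) (by norm_num)).1 ?_
          calc (y ^ s') ^ 2 = y ^ (2 * s') := by rw [← pow_mul, mul_comm]
            _ ≤ y ^ T i := Nat.pow_le_pow_right hy1 g1
            _ ≤ κ i ^ 2 := f3
        calc (rA A n) ^ s' ≤ (2 * C4 * y) ^ s' := Nat.pow_le_pow_left f4 _
          _ = (2 * C4) ^ s' * y ^ s' := mul_pow _ _ _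
          _ ≤ (2 * C4) ^ s' * (Nat.log 2 n + 1) := Nat.mul_le_mul_left _ (by omega)
          _ ≤ _ := Nat.mul_le_mul_right _ (Nat.le_add_right _ _)
      · push Not at hiI
        have g1 : κ i ≤ κ I := hκmono hiI.le
        have g2 : y ≤ κ I ^ 2 := by
          calc y ≤ y ^ T i := Nat.le_self_pow (by have := (hT1 i).1; omega) y
            _ ≤ κ i ^ 2 := f3
            _ ≤ κ I ^ 2 := Nat.pow_le_pow_left g1 2
        calc (rA A n) ^ s' ≤ (2 * C4 * κ I ^ 2) ^ s' :=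
              Nat.pow_le_pow_left (f4.trans (Nat.mul_le_mul_left _ g2)) _
          _ = (2 * C4 * κ I ^ 2) ^ s' * 1 := (mul_one _).symm
          _ ≤ ((2 * C4) ^ s' + (2 * C4 * κ I ^ 2) ^ s') * (Nat.log 2 n + 1) :=
              Nat.mul_le_mul (Nat.le_add_left _ _) (by omega)
  · intro s' hs'
    obtain ⟨I0, hI0⟩ := hTlim (100 * s')
    obtain ⟨I, hI⟩ : ∃ I, I = I0 + 512 * (130 * s' + 1) := ⟨_, rfl⟩
    -- the increments
    have hinc : ∀ i, I ≤ i → s' * (13 + 8 * γ (i + 1) + 10 * bc (G (T i)) (u i)) ≤ κ i / 512 := by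
      intro i hi
      obtain ⟨w, hw⟩ : ∃ w, w = κ i / 512 := ⟨_, rfl⟩
      obtain ⟨e1, e2, e3, e4⟩ := hwid i
      rw [← hw] at e1 e2 e3 e4 ⊢
      have e5 : 130 * s' ≤ w := by
        have := hκlow i
        omega
      have e6 : 100 * (s' * bc (G (T i)) (u i)) ≤ 8 * w := by
        have g1 := hI0 i (by omega)
        have g2 := (hG (T i) (hT1 i).1 (u i) (huN i)).2.1
        calc 100 * (s' * bc (G (T i)) (u i)) = 100 * s' * bc (G (T i)) (u i) := by ring
          _ ≤ T i * bc (G (T i)) (u i) := Nat.mul_le_mul_right _ g1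
          _ ≤ u i := g2
          _ ≤ 8 * w := by rw [hu, hw]; exact Nat.sub_le _ _
      have e7 : 204800 * (s' * γ (i + 1)) ≤ 514 * w := by
        have g1 := hI0 (i + 1) (by omega)
        have g2 := hγup (i + 1)
        have g3 := hκs i
        calc 204800 * (s' * γ (i + 1)) = 2048 * (100 * s') * γ (i + 1) := by ring
          _ ≤ 2048 * T (i + 1) * γ (i + 1) :=
              Nat.mul_le_mul_right _ (Nat.mul_le_mul_left _ g1)
          _ ≤ κ (i + 1) := g2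
          _ ≤ 514 * w := by rw [g3, ← hw]; omega
      have e8 : s' * (13 + 8 * γ (i + 1) + 10 * bc (G (T i)) (u i)) =
          13 * s' + 8 * (s' * γ (i + 1)) + 10 * (s' * bc (G (T i)) (u i)) := by ring
      omega
    have hsum : ∀ i, I ≤ i → s' * bc A (8 * κ i) ≤ s' * (8 * κ I) + κ i := by
      intro i hi
      induction i, hi using Nat.le_induction with
      | base =>
        have := Nat.mul_le_mul_left s' (bc_le A (8 * κ I))
        omega
      | succ i hi ih =>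
        have e1 := Nat.mul_le_mul_left s' (hwin i)
        rw [mul_add] at e1
        have e2 := hinc i hi
        have e3 := hκs i
        omega
    refine ⟨16 * (s' * κ I) + 8 * κ I, fun K hK => ?_⟩
    have hex : ∃ i, K < 8 * κ i := by
      refine ⟨K + 1, ?_⟩
      have := hκlow (K + 1)
      omega
    classical
    obtain ⟨m, hm, hmin⟩ : ∃ m, K < 8 * κ m ∧ ∀ i < m, ¬ K < 8 * κ i :=
      ⟨Nat.find hex, Nat.find_spec hex, fun i hi => Nat.find_min hex hi⟩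
    have hmI : I < m := by
      by_contra hc
      push Not at hc
      have : κ m ≤ κ I := hκmono hc
      omega
    obtain ⟨i, rfl⟩ : ∃ i, m = i + 1 := ⟨m - 1, by omega⟩
    have hi : 8 * κ i ≤ K := not_lt.1 (hmin i (Nat.lt_succ_self i))
    have e1 := Nat.mul_le_mul_left s' (bc_mono A hm.le)
    have e2 := hsum (i + 1) (by omega)
    have e3 := hκs i
    have e4 : s' * (8 * κ I) = 8 * (s' * κ I) := by ring
    omega

end Pool.Agent.Run7.h15.AS
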