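import Pool.Agent.Run7.h15.AS.Succ

/-!
# The theorem with real exponents
-/

set_option autoImplicit false

namespace Pool.Agent.Run7.h15.AS

open Finset Pool.Agent.H125R2.ET Pool.Agent.Helper667_AS

theorem logn_bounds {n : ℕ} (hn : 3 ≤ n) :
    1 ≤ Real.log n ∧ ((Nat.log 2 n + 1 : ℕ) : ℝ) ≤ 3 * Real.log n := by
  have h1 : 1 < Real.log n := T22.one_lt_log hn
  refine ⟨h1.le, ?_⟩
  have h2 : 2 ^ Nat.log 2 n ≤ n := Nat.pow_log_le_self 2 (by omega)
  have h3 : ((2 : ℝ)) ^ Nat.log 2 n ≤ n := by exact_mod_cast h2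
  have h4 : Real.log ((2 : ℝ) ^ Nat.log 2 n) ≤ Real.log n := Real.log_le_log (by positivity) h3
  rw [Real.log_pow] at h4
  have h5 := Real.log_two_gt_d9
  have h6 : (0 : ℝ) ≤ (Nat.log 2 n : ℝ) := Nat.cast_nonneg _
  push_cast
  nlinarith

theorem thin_sets (δ η : ℝ) (hδ : 0 < δ) (hδ1 : δ < 1) (hη : 0 < η) : ∃ (A : Set ℕ) (C : ℝ),
    (∀ n : ℕ, 3 ≤ n → (rA A n : ℝ) ≤ C * (Real.log n) ^ (δ + η)) ∧
    (∀ K : ℕ, (bc A K : ℝ) ≤ C * (K : ℝ) ^ (1 - δ)) := by
  obtain ⟨d, hd⟩ := exists_nat_gt (4 / η + 2 / (1 - δ))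
  have h1δ : 0 < 1 - δ := by linarith
  have hd1 : 4 / η < d := by
    have : 0 < 2 / (1 - δ) := by positivity
    linarith
  have hd2 : 2 / (1 - δ) < d := by
    have : 0 < 4 / η := by positivity
    linarith
  have hd0 : 0 < (d : ℝ) := lt_trans (by positivity) hd1
  have hdn : d ≠ 0 := by
    rintro rfl
    simp at hd0
  obtain ⟨q, hq⟩ : ∃ q : ℕ, q = ⌈δ * d⌉₊ := ⟨_, rfl⟩
  have hq1 : δ * d ≤ q := by rw [hq]; exact Nat.le_ceil _
  have hq2 : (q : ℝ) < δ * d + 1 := by rw [hq]; exact Nat.ceil_lt_add_one (by positivity)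
  have hqd : q < d := by
    rw [div_lt_iff₀ h1δ] at hd2
    have : (q : ℝ) < d := by nlinarith
    exact_mod_cast this
  obtain ⟨f, hf⟩ : ∃ f, d = f + q := ⟨d - q, by omega⟩
  obtain ⟨A, c, hA⟩ := good_exists q f (by omega)
  have hηd : 4 < η * d := by
    rw [div_lt_iff₀ hη] at hd1
    linarith
  have c0 : (0 : ℝ) ≤ c := Nat.cast_nonneg _
  have c1 : (c : ℝ) ≤ ((c : ℝ) + 1) ^ d := by
    calc (c : ℝ) ≤ (c : ℝ) + 1 := by linarith
      _ ≤ ((c : ℝ) + 1) ^ d := le_self_pow₀ (by linarith) hdn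
  have h3le : (1 : ℝ) ≤ (3 : ℝ) ^ (δ + η) := Real.one_le_rpow (by norm_num) (by linarith)
  refine ⟨A, (c + 1) * (3 : ℝ) ^ (δ + η), ?_, ?_⟩
  · intro n hn
    obtain ⟨g1, g2⟩ := logn_bounds hn
    have hL0 : (0 : ℝ) ≤ ((Nat.log 2 n + 1 : ℕ) : ℝ) := Nat.cast_nonneg _
    have hL1 : (1 : ℝ) ≤ 3 * Real.log n := by linarith
    have e1 : (rA A n : ℝ) ^ d ≤ c * ((Nat.log 2 n + 1 : ℕ) : ℝ) ^ (q + 1) := by
      rw [hf]
      exact_mod_cast hA.rep n
    have e2 : ((Nat.log 2 n + 1 : ℕ) : ℝ) ^ (q + 1) ≤ ((3 * Real.log n) ^ (δ + η)) ^ d := by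
      calc ((Nat.log 2 n + 1 : ℕ) : ℝ) ^ (q + 1) ≤ (3 * Real.log n) ^ (q + 1) :=
            pow_le_pow_left₀ hL0 g2 _
        _ = (3 * Real.log n) ^ (((q + 1 : ℕ) : ℝ)) := (Real.rpow_natCast _ _).symm
        _ ≤ (3 * Real.log n) ^ ((δ + η) * d) := by
            refine Real.rpow_le_rpow_of_exponent_le hL1 ?_
            push_cast
            nlinarith
        _ = ((3 * Real.log n) ^ (δ + η)) ^ d := by
            rw [Real.rpow_mul (by linarith), Real.rpow_natCast]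
    have e3 : (rA A n : ℝ) ≤ (c + 1) * (3 * Real.log n) ^ (δ + η) := by
      refine le_of_pow_le_pow_left₀ hdn (by positivity) ?_
      rw [mul_pow]
      refine e1.trans (mul_le_mul c1 e2 (by positivity) (by positivity))
    refine e3.trans (le_of_eq ?_)
    rw [Real.mul_rpow (by norm_num) (by linarith)]
    ring
  · intro K
    rcases Nat.eq_zero_or_pos K with h0 | h0
    · have h00 : bc A K = 0 := by
        have := bc_le A K
        omega
      rw [h00, Nat.cast_zero]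
      positivity
    · have hK1 : (1 : ℝ) ≤ K := by exact_mod_cast h0
      have e1 : (bc A K : ℝ) ^ d ≤ c * (K : ℝ) ^ f := by
        rw [hf]
        exact_mod_cast hA.bad K
      have e2 : (K : ℝ) ^ f ≤ ((K : ℝ) ^ (1 - δ)) ^ d := by
        calc (K : ℝ) ^ f = (K : ℝ) ^ ((f : ℕ) : ℝ) := (Real.rpow_natCast _ _).symm
          _ ≤ (K : ℝ) ^ ((1 - δ) * d) := by
              refine Real.rpow_le_rpow_of_exponent_le hK1 ?_
              have : (d : ℝ) = f + q := by exact_mod_cast hf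
              nlinarith
          _ = ((K : ℝ) ^ (1 - δ)) ^ d := by
              rw [Real.rpow_mul (by positivity), Real.rpow_natCast]
      have e3 : (bc A K : ℝ) ≤ (c + 1) * (K : ℝ) ^ (1 - δ) := by
        refine le_of_pow_le_pow_left₀ hdn (by positivity) ?_
        rw [mul_pow]
        exact e1.trans (mul_le_mul c1 e2 (by positivity) (by positivity))
      have e4 : (0 : ℝ) ≤ (c + 1) * (K : ℝ) ^ (1 - δ) := by positivity
      nlinarith

end Pool.Agent.Run7.h15.AS
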