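import Pool.Agent.Helper667_AS.Step

/-!
# Thin sets with a slowly growing representation function: the induction

Built on the starting files `Pool/Agent/Helper667_AS` (wide blocks, the count of the bad scales of
one window) and `Pool/Agent/H125R2/ET`.
-/

set_option autoImplicit false

namespace Pool.Agent.Run7.h15.AS

open Finset Pool.Agent.H125R2.ET Pool.Agent.Helper667_AS

theorem b1 (c k x e a : ℕ) : c * (k * x ^ e) ^ a = c * k ^ a * (x ^ a) ^ e := by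
  rw [mul_pow, ← pow_mul, ← pow_mul, mul_comm a e, mul_assoc]

theorem b2 (c x e a : ℕ) : (c * x ^ a) ^ e = c ^ e * (x ^ e) ^ a := by
  rw [mul_pow, ← pow_mul, ← pow_mul, mul_comm a e]

theorem good_succ {q f c : ℕ} (hf : 1 ≤ f) {B : Set ℕ} (hB : Good q f B c) :
    ∃ (A : Set ℕ) (c' : ℕ), Good q (f + 1) A c' := by
  obtain ⟨C, hC⟩ := base_exists
  have hM : BlockMom C := block_mom C
  have hR : BlockRange C := block_range C
  obtain ⟨C4, K0, hmain⟩ := wide_set C hM hR (reg_prob C hM hR)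
  obtain ⟨D, hD⟩ : ∃ D, D = f + (q + 1) := ⟨_, rfl⟩
  have hDq : f + 1 + q = D := by omega
  obtain ⟨cu, hcu⟩ : ∃ cu, cu = 8 * (f + q + 1) * 2 ^ (f + q) := ⟨_, rfl⟩
  obtain ⟨N1, hN1⟩ := pow_le_two_pow ((f + q) * (q + 1) + 1)
  obtain ⟨N2, hN2⟩ := pow_le_two_pow (D + 2)
  obtain ⟨x0, hx0⟩ : ∃ x0, x0 = N1 + N2 + 32 * cu + K0 + C + 64 + 2 * c * (cu + 2) ^ (q + 1) :=
    ⟨_, rfl⟩
  -- facts for `x ≥ x0`
  have hselff : ∀ x : ℕ, x ≤ x ^ f := fun x => Nat.le_self_pow (by omega) x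
  have hselfD : ∀ x : ℕ, x ≤ x ^ D := fun x => Nat.le_self_pow (by omega) x
  have hw : ∀ x, x0 ≤ x → wdt q f x ≤ cu * x ^ (f + q) := by
    intro x hx
    rw [hcu]
    exact wdt_le (by omega)
  have hw2 : ∀ x, x0 ≤ x → wdt q f x + 2 ≤ (cu + 2) * x ^ (f + q) := by
    intro x hx
    have h1 := hw x hx
    have h2 : 1 ≤ x ^ (f + q) := Nat.one_le_pow _ _ (by omega)
    calc wdt q f x + 2 ≤ cu * x ^ (f + q) + 2 * x ^ (f + q) := by omega
      _ = (cu + 2) * x ^ (f + q) := by ring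
  have hu : ∀ x, x0 ≤ x → 32 * wdt q f x ≤ x ^ D := by
    intro x hx
    calc 32 * wdt q f x ≤ 32 * (cu * x ^ (f + q)) := Nat.mul_le_mul_left _ (hw x hx)
      _ = (32 * cu) * x ^ (f + q) := by ring
      _ ≤ x * x ^ (f + q) := Nat.mul_le_mul_right _ (by omega)
      _ = x ^ D := by rw [hD]; ring
  have hγ : ∀ x, x0 ≤ x → 32 * x ^ f ≤ x ^ D := by
    intro x hx
    have h1 : x ≤ x ^ (q + 1) := Nat.le_self_pow (by omega) x
    calc 32 * x ^ f ≤ x ^ (q + 1) * x ^ f := Nat.mul_le_mul_right _ (by omega)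
      _ = x ^ D := by rw [hD]; ring
  have hiγ : ∀ x, x0 ≤ x → x * (x ^ D + C + 5) ≤ 2 ^ (x ^ f) := by
    intro x hx
    have h1 := hselfD x
    calc x * (x ^ D + C + 5) ≤ x * (x * x ^ D) := by
          refine Nat.mul_le_mul_left _ ?_
          have : 2 * x ^ D ≤ x * x ^ D := Nat.mul_le_mul_right _ (by omega)
          omega
      _ = x ^ (D + 2) := by ring
      _ ≤ 2 ^ x := hN2 x (by omega)
      _ ≤ 2 ^ (x ^ f) := Nat.pow_le_pow_right (by norm_num) (hselff x)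
  have hcard : ∀ x, x0 ≤ x → (cut B (wdt q f x)).card ^ 2 ≤ 2 ^ (wdt q f x + 2 * x ^ f) := by
    intro x hx
    have h1 := cut_card hf hB (wdt q f x)
    have h2 : (wdt q f x + 2) ^ (q + 1) ≤ (cu + 2) ^ (q + 1) * x ^ ((f + q) * (q + 1)) := by
      calc (wdt q f x + 2) ^ (q + 1) ≤ ((cu + 2) * x ^ (f + q)) ^ (q + 1) :=
            Nat.pow_le_pow_left (hw2 x hx) _
        _ = (cu + 2) ^ (q + 1) * x ^ ((f + q) * (q + 1)) := by rw [mul_pow, ← pow_mul]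
    have h3 : 2 * (c * (wdt q f x + 2) ^ (q + 1)) ≤ 2 ^ (2 * x ^ f) := by
      calc 2 * (c * (wdt q f x + 2) ^ (q + 1))
          ≤ 2 * (c * ((cu + 2) ^ (q + 1) * x ^ ((f + q) * (q + 1)))) :=
            Nat.mul_le_mul_left _ (Nat.mul_le_mul_left _ h2)
        _ = (2 * c * (cu + 2) ^ (q + 1)) * x ^ ((f + q) * (q + 1)) := by ring
        _ ≤ x * x ^ ((f + q) * (q + 1)) := Nat.mul_le_mul_right _ (by omega)
        _ = x ^ ((f + q) * (q + 1) + 1) := by ring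
        _ ≤ 2 ^ x := hN1 x (by omega)
        _ ≤ 2 ^ (2 * x ^ f) := Nat.pow_le_pow_right (by norm_num) (by
            have := hselff x
            omega)
    calc (cut B (wdt q f x)).card ^ 2 ≤ 2 ^ (wdt q f x + 1) * (c * (wdt q f x + 2) ^ (q + 1)) := h1
      _ = 2 ^ (wdt q f x) * (2 * (c * (wdt q f x + 2) ^ (q + 1))) := by rw [pow_succ]; ring
      _ ≤ 2 ^ (wdt q f x) * 2 ^ (2 * x ^ f) := Nat.mul_le_mul_left _ h3
      _ = 2 ^ (wdt q f x + 2 * x ^ f) := (pow_add _ _ _).symm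
  have hwmono : ∀ x, x0 ≤ x → 8 * x ^ D + wdt q f x + 8 * (x + 1) ^ f = 8 * (x + 1) ^ D := by
    intro x _
    rw [hD]
    exact wdt_eq q f x
  -- primes
  have h1 : ∀ i : ℕ, ∃ p : ℕ, p.Prime ∧ 2 ^ ((x0 + i) ^ D) < p ∧ p ≤ 2 ^ ((x0 + i) ^ D + 1) := by
    intro i
    obtain ⟨p, hp, h1, h2⟩ := Nat.exists_prime_lt_and_le_two_mul (2 ^ ((x0 + i) ^ D))
      (pow_ne_zero _ two_ne_zero)
    exact ⟨p, hp, h1, by rw [pow_succ 2]; omega⟩
  choose p hp hlo hhi using h1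
  have h7 : ∀ i, 7 < p i := by
    intro i
    have h2 := hselfD (x0 + i)
    have h3 : 2 ^ 3 ≤ 2 ^ ((x0 + i) ^ D) := Nat.pow_le_pow_right (by norm_num) (by omega)
    have := hlo i
    omega
  have h2 : ∀ i, ∃ D : Finset ℕ, IsBase C (p i) D := fun i => hC (p i) (hp i) (h7 i)
  choose E hE using h2
  obtain ⟨s, hsB, hsκ, hsu, hsγ⟩ : ∃ s : WSys C, (∀ i, s.B i = cut B (wdt q f (x0 + i))) ∧
      (∀ i, s.κ i = (x0 + i) ^ D) ∧ (∀ i, s.u i = wdt q f (x0 + i)) ∧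
      (∀ i, s.γ i = (x0 + i) ^ f) := by
    refine ⟨⟨p, E, fun i => cut B (wdt q f (x0 + i)), fun i => (x0 + i) ^ D,
      fun i => wdt q f (x0 + i), fun i => (x0 + i) ^ f, hp, hlo, hhi, hE,
      ?_, ?_, ?_, ?_, ?_, ?_, ?_, ?_⟩, fun i => rfl, fun i => rfl, fun i => rfl, fun i => rfl⟩
    · intro i b hb
      exact (mem_cut.1 hb).1
    · intro i j hij
      have e1 := hwmono (x0 + j) (by omega)
      have e2 := pow_mono_gap (x := x0 + i) (y := x0 + j + 1) f (q + 1) (by omega) (by omega)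
      rw [← hD] at e2
      show 8 * (x0 + j) ^ D + wdt q f (x0 + j) + 8 * (x0 + i) ^ f ≤ 8 * (x0 + i) ^ D
      omega
    · intro i j hij
      refine (hcard (x0 + j) (by omega)).trans (Nat.pow_le_pow_right (by norm_num) ?_)
      have e1 : (x0 + j) ^ f ≤ (x0 + i) ^ f := Nat.pow_le_pow_left (by omega) f
      show wdt q f (x0 + j) + 2 * (x0 + j) ^ f ≤ wdt q f (x0 + j) + 2 * (x0 + i) ^ f
      omega
    · intro i
      exact hu (x0 + i) (by omega)
    · intro i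
      exact hγ (x0 + i) (by omega)
    · intro i
      have := hselfD (x0 + i)
      show i ≤ (x0 + i) ^ D
      omega
    · intro i
      refine le_trans ?_ (hiγ (x0 + i) (by omega))
      exact Nat.mul_le_mul_right _ (by omega)
    · intro i
      have := hselff (x0 + i)
      show C + 8 ≤ (x0 + i) ^ f
      omega
  -- the representations in the sets `B i`
  obtain ⟨M, hMdef⟩ : ∃ M, M = c * (cu + 2) ^ (q + 1) := ⟨_, rfl⟩
  have hρ : ∀ i n, repF (s.B i) (s.B i) n ≤ M * (x0 + i) ^ (q + 1) := by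
    intro i n
    rw [hsB i]
    refine (Nat.pow_le_pow_iff_left (n := f + q) (by omega)).1 ?_
    calc (repF (cut B (wdt q f (x0 + i))) (cut B (wdt q f (x0 + i))) n) ^ (f + q)
        ≤ c * (wdt q f (x0 + i) + 2) ^ (q + 1) := cut_rep hf hB _ n
      _ ≤ c * ((cu + 2) * (x0 + i) ^ (f + q)) ^ (q + 1) :=
          Nat.mul_le_mul_left _ (Nat.pow_le_pow_left (hw2 _ (by omega)) _)
      _ = M * ((x0 + i) ^ (q + 1)) ^ (f + q) := by rw [hMdef]; exact b1 _ _ _ _ _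
      _ ≤ M ^ (f + q) * ((x0 + i) ^ (q + 1)) ^ (f + q) :=
          Nat.mul_le_mul_right _ (Nat.le_self_pow (by omega) M)
      _ = (M * (x0 + i) ^ (q + 1)) ^ (f + q) := (mul_pow _ _ _).symm
  obtain ⟨A, hA1, hA2⟩ := hmain s (fun i => by
      rw [hsκ i]
      have := hselfD (x0 + i)
      omega) (fun i => M * (x0 + i) ^ (q + 1)) hρ
  -- representations
  have hrep : ∀ n, rA A n = 0 ∨ ∃ i, 2 ^ (8 * (x0 + i) ^ D) ≤ n ∧
      rA A n ≤ C4 * (M + 1) * (x0 + i) ^ (q + 1) := by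
    intro n
    rcases hA1 n with h | ⟨i, hi1, hi2⟩
    · exact Or.inl h
    · rw [hsκ i] at hi1 hi2
      rw [hsγ i] at hi2
      refine Or.inr ⟨i, hi1, ?_⟩
      have e0 : (0 : ℝ) < ((x0 + i : ℕ) : ℝ) := by
        have : 0 < x0 + i := by omega
        exact_mod_cast this
      have e1 : ((((x0 + i) ^ D : ℕ) : ℝ)) / (((x0 + i) ^ f : ℕ) : ℝ) =
          (((x0 + i) ^ (q + 1) : ℕ) : ℝ) := by
        rw [Nat.cast_pow, Nat.cast_pow, Nat.cast_pow, hD, pow_add]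
        field_simp
      rw [e1] at hi2
      have e2 : (rA A n : ℝ) ≤ ((C4 * (M + 1) * (x0 + i) ^ (q + 1) : ℕ) : ℝ) := by
        refine hi2.trans (le_of_eq ?_)
        push_cast
        ring
      exact_mod_cast e2
  -- the bad scales
  obtain ⟨T, hT⟩ : ∃ T, T = 21 + 10 * (c * cu ^ f) := ⟨_, rfl⟩
  have hbad : ∀ x, x0 ≤ x → bc B (wdt q f x) ≤ c * cu ^ f * x ^ f := by
    intro x hx
    refine (Nat.pow_le_pow_iff_left (n := f + q) (by omega)).1 ?_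
    calc (bc B (wdt q f x)) ^ (f + q) ≤ c * (wdt q f x) ^ f := hB.bad _
      _ ≤ c * (cu * x ^ (f + q)) ^ f :=
          Nat.mul_le_mul_left _ (Nat.pow_le_pow_left (hw x hx) _)
      _ = c * cu ^ f * (x ^ f) ^ (f + q) := b1 _ _ _ _ _
      _ ≤ (c * cu ^ f) ^ (f + q) * (x ^ f) ^ (f + q) :=
          Nat.mul_le_mul_right _ (Nat.le_self_pow (by omega) _)
      _ = (c * cu ^ f * x ^ f) ^ (f + q) := (mul_pow _ _ _).symm
  have hpow8 : ∀ i, 2 ^ (8 * (x0 + i) ^ D) ≤ (s.p i) ^ 8 ∧ (s.p i) ^ 8 ≤ 2 ^ (8 * (x0 + i) ^ D + 8) := by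
    intro i
    have e1 := s.lo i
    have e2 := s.hi i
    rw [hsκ i] at e1 e2
    constructor
    · calc 2 ^ (8 * (x0 + i) ^ D) = (2 ^ ((x0 + i) ^ D)) ^ 8 := by rw [← pow_mul, mul_comm]
        _ ≤ (s.p i) ^ 8 := Nat.pow_le_pow_left e1.le 8
    · calc (s.p i) ^ 8 ≤ (2 ^ ((x0 + i) ^ D + 1)) ^ 8 := Nat.pow_le_pow_left e2 8
        _ = 2 ^ (8 * (x0 + i) ^ D + 8) := by rw [← pow_mul]; ring_nf
  have hwin : ∀ i, bc A (8 * (x0 + (i + 1)) ^ D) ≤
      bc A (8 * (x0 + i) ^ D) + T * (x0 + (i + 1)) ^ f := by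
    intro i
    have e1 := bc_window A B (κ := (x0 + i) ^ D) (κ' := (x0 + (i + 1)) ^ D)
      (u := wdt q f (x0 + i)) (m := (s.p i) ^ 8) (hpow8 i).1 (hpow8 i).2 (by
        intro n hn hex
        refine hA2 i n hn ?_
        rw [hsB i]
        exact hex)
    have e2 := hwmono (x0 + i) (by omega)
    have e3 := hbad (x0 + i) (by omega)
    have e4 : x0 + (i + 1) = x0 + i + 1 := rfl
    rw [e4] at e1 ⊢
    have e5 : 8 * (x0 + i + 1) ^ D - (8 * (x0 + i) ^ D + wdt q f (x0 + i)) =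
        8 * (x0 + i + 1) ^ f := by omega
    rw [e5] at e1
    have e6 : (x0 + i) ^ f ≤ (x0 + i + 1) ^ f := Nat.pow_le_pow_left (by omega) f
    have e7 : 1 ≤ (x0 + i + 1) ^ f := Nat.one_le_pow _ _ (by omega)
    have e8 : c * cu ^ f * (x0 + i) ^ f ≤ c * cu ^ f * (x0 + i + 1) ^ f :=
      Nat.mul_le_mul_left _ e6
    have e9 : T * (x0 + i + 1) ^ f = 21 * (x0 + i + 1) ^ f +
        10 * (c * cu ^ f * (x0 + i + 1) ^ f) := by rw [hT]; ring
    omega
  have hsum : ∀ i, bc A (8 * (x0 + i) ^ D) ≤ 8 * x0 ^ D + i * (T * (x0 + i) ^ f) := by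
    intro i
    induction i with
    | zero =>
      rw [Nat.add_zero, Nat.zero_mul, Nat.add_zero]
      exact bc_le _ _
    | succ i ih =>
      have e1 := hwin i
      have e2 : i * (T * (x0 + i) ^ f) ≤ i * (T * (x0 + (i + 1)) ^ f) :=
        Nat.mul_le_mul_left _ (Nat.mul_le_mul_left _ (Nat.pow_le_pow_left (by omega) f))
      have e3 : (i + 1) * (T * (x0 + (i + 1)) ^ f) =
          i * (T * (x0 + (i + 1)) ^ f) + T * (x0 + (i + 1)) ^ f := by ring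
      omega
  have hkey : ∀ K, 8 * x0 ^ D ≤ K →
      (bc A K) ^ (f + 1 + q) ≤ ((8 * x0 ^ D + T) * 2 ^ (f + 1)) ^ (f + 1 + q) * K ^ (f + 1) := by
    intro K hK
    have hex : ∃ i, K < 8 * (x0 + i) ^ D := by
      refine ⟨K + 1, ?_⟩
      have := hselfD (x0 + (K + 1))
      omega
    classical
    obtain ⟨m, hm, hmin⟩ : ∃ m, K < 8 * (x0 + m) ^ D ∧ ∀ i < m, ¬ K < 8 * (x0 + i) ^ D :=
      ⟨Nat.find hex, Nat.find_spec hex, fun i hi => Nat.find_min hex hi⟩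
    have hm0 : m ≠ 0 := by
      rintro rfl
      rw [Nat.add_zero] at hm
      omega
    obtain ⟨i, rfl⟩ := Nat.exists_eq_succ_of_ne_zero hm0
    have hi : 8 * (x0 + i) ^ D ≤ K := not_lt.1 (hmin i (Nat.lt_succ_self i))
    have e1 : bc A K ≤ 8 * x0 ^ D + (i + 1) * (T * (x0 + (i + 1)) ^ f) :=
      (bc_mono A hm.le).trans (hsum (i + 1))
    have e2 : 8 * x0 ^ D + (i + 1) * (T * (x0 + (i + 1)) ^ f) ≤
        (8 * x0 ^ D + T) * (x0 + (i + 1)) ^ (f + 1) := by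
      have f1 : 1 ≤ (x0 + (i + 1)) ^ (f + 1) := Nat.one_le_pow _ _ (by omega)
      have f2 : 8 * x0 ^ D * 1 ≤ 8 * x0 ^ D * (x0 + (i + 1)) ^ (f + 1) := Nat.mul_le_mul_left _ f1
      have f3 : (i + 1) * (T * (x0 + (i + 1)) ^ f) ≤ (x0 + (i + 1)) * (T * (x0 + (i + 1)) ^ f) :=
        Nat.mul_le_mul_right _ (by omega)
      have f4 : (x0 + (i + 1)) * (T * (x0 + (i + 1)) ^ f) = T * (x0 + (i + 1)) ^ (f + 1) := by ring
      rw [add_mul (8 * x0 ^ D) T]
      omega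
    have e3 : (x0 + (i + 1)) ^ (f + 1) ≤ 2 ^ (f + 1) * (x0 + i) ^ (f + 1) := by
      rw [← mul_pow]
      exact Nat.pow_le_pow_left (by omega) _
    have e4 : bc A K ≤ ((8 * x0 ^ D + T) * 2 ^ (f + 1)) * (x0 + i) ^ (f + 1) := by
      refine e1.trans (e2.trans ?_)
      rw [mul_assoc]
      exact Nat.mul_le_mul_left _ e3
    calc (bc A K) ^ (f + 1 + q)
        ≤ (((8 * x0 ^ D + T) * 2 ^ (f + 1)) * (x0 + i) ^ (f + 1)) ^ (f + 1 + q) :=
          Nat.pow_le_pow_left e4 _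
      _ = ((8 * x0 ^ D + T) * 2 ^ (f + 1)) ^ (f + 1 + q) * ((x0 + i) ^ D) ^ (f + 1) := by
          rw [b2, hDq]
      _ ≤ ((8 * x0 ^ D + T) * 2 ^ (f + 1)) ^ (f + 1 + q) * K ^ (f + 1) :=
          Nat.mul_le_mul_left _ (Nat.pow_le_pow_left (by omega) _)
  refine ⟨A, (C4 * (M + 1)) ^ (f + 1 + q) + (((8 * x0 ^ D + T) * 2 ^ (f + 1)) ^ (f + 1 + q) +
    (8 * x0 ^ D) ^ q), ?_, ?_⟩
  · intro n
    rcases hrep n with h | ⟨i, hi1, hi2⟩
    · rw [h, zero_pow (by omega)]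
      exact Nat.zero_le _
    · have e1 : 8 * (x0 + i) ^ D ≤ Nat.log 2 n := Nat.le_log_of_pow_le (by norm_num) hi1
      calc (rA A n) ^ (f + 1 + q) ≤ (C4 * (M + 1) * (x0 + i) ^ (q + 1)) ^ (f + 1 + q) :=
            Nat.pow_le_pow_left hi2 _
        _ = (C4 * (M + 1)) ^ (f + 1 + q) * ((x0 + i) ^ D) ^ (q + 1) := by
            rw [b2, hDq]
        _ ≤ (C4 * (M + 1)) ^ (f + 1 + q) * (Nat.log 2 n + 1) ^ (q + 1) :=
            Nat.mul_le_mul_left _ (Nat.pow_le_pow_left (by omega) _)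
        _ ≤ _ := Nat.mul_le_mul_right _ (Nat.le_add_right _ _)
  · intro K
    by_cases hK : 8 * x0 ^ D ≤ K
    · refine (hkey K hK).trans (Nat.mul_le_mul_right _ ?_)
      omega
    · have e1 := bc_le A K
      calc (bc A K) ^ (f + 1 + q) = (bc A K) ^ q * (bc A K) ^ (f + 1) := by
            rw [← pow_add]; congr 1; omega
        _ ≤ (8 * x0 ^ D) ^ q * K ^ (f + 1) :=
            Nat.mul_le_mul (Nat.pow_le_pow_left (by omega) _) (Nat.pow_le_pow_left e1 _)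
        _ ≤ _ := Nat.mul_le_mul_right _ (by omega)

theorem good_exists (q f : ℕ) (hf : 1 ≤ f) : ∃ (A : Set ℕ) (c : ℕ), Good q f A c := by
  induction f with
  | zero => omega
  | succ f ih =>
    rcases Nat.eq_zero_or_pos f with h0 | h0
    · subst h0
      exact good_base q
    · obtain ⟨B, c, hB⟩ := ih h0
      exact good_succ h0 hB

end Pool.Agent.Run7.h15.AS
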